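import Pool.Agent.Y198.DC.Stm2

/-!
# DD-MCM: depth of the range of a matrix of a periodic pair

Owner helper383 (for helper198).
-/

set_option autoImplicit false

universe u

open CategoryTheory IsLocalRing TensorProduct Pointwise

namespace Pool.Agent.Y383.DC

theorem smul_max_lt {R : Type u} [CommRing R] [IsLocalRing R] (M : Type u) [AddCommGroup M]
    [Module R M] [Module.Finite R M] [Nontrivial M] :
    (maximalIdeal R) • (⊤ : Submodule R M) < ⊤ := by
  apply lt_top_iff_ne_top.mpr
  exact (Submodule.top_ne_ideal_smul_of_le_jacobson_annihilator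
    (IsLocalRing.maximalIdeal_le_jacobson _)).symm

theorem flat_reg {R : Type u} [CommRing R] (M : Type u) [AddCommGroup M] [Module R M]
    [Module.Flat R M] {rs : List R} (h : RingTheory.Sequence.IsWeaklyRegular R rs) :
    RingTheory.Sequence.IsWeaklyRegular M rs := by
  have h1 : RingTheory.Sequence.IsWeaklyRegular (M ⊗[R] R) rs := h.isWeaklyRegular_lTensor
  exact ((TensorProduct.rid R M).isWeaklyRegular_congr rs).mp h1

/-- the kernel of a surjective map -/
theorem ext_ker {R : Type u} [CommRing R] (k : ModuleCat.{u} R) (F N : Type u) [AddCommGroup F]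
    [Module R F] [AddCommGroup N] [Module R N] (f : F →ₗ[R] N) (hf : Function.Surjective f)
    (i : ℕ) (hF : Subsingleton (Abelian.Ext k (ModuleCat.of R F) i))
    (hN : ∀ j, j + 1 = i → Subsingleton (Abelian.Ext k (ModuleCat.of R N) j)) :
    Subsingleton (Abelian.Ext k (ModuleCat.of R (LinearMap.ker f)) i) := by
  have hS := LinearMap.shortExact_shortComplexKer hf
  rcases Nat.eq_zero_or_pos i with rfl | hi
  · have := hS.mono_f
    exact (Abelian.Ext.postcomp_mk₀_injective_of_mono k f.shortComplexKer.f).subsingleton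
  · obtain ⟨j, rfl⟩ := Nat.exists_eq_add_of_lt hi
    rw [zero_add] at *
    have hj := hN j rfl
    refine subsingleton_of_forall_eq 0 fun x => ?_
    obtain ⟨y, hy⟩ := Abelian.Ext.covariant_sequence_exact₁ k hS x
      (Subsingleton.elim (h := hF) _ _) (n₀ := j) rfl
    have hy0 : y = 0 := Subsingleton.elim (h := hj) _ _
    rw [← hy, hy0, Abelian.Ext.zero_comp]

theorem ext_congr {R : Type u} [CommRing R] (k : ModuleCat.{u} R) {F : Type u} [AddCommGroup F]
    [Module R F] {P Q : Submodule R F} (h : P = Q) (i : ℕ)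
    (hP : Subsingleton (Abelian.Ext k (ModuleCat.of R P) i)) :
    Subsingleton (Abelian.Ext k (ModuleCat.of R Q) i) := by
  subst h
  exact hP

theorem ext_range {R : Type u} [CommRing R] (k : ModuleCat.{u} R) {F : Type u} [AddCommGroup F]
    [Module R F] (α β : F →ₗ[R] F) (h : LinearMap.ker α = LinearMap.range β)
    (i : ℕ) (hF : Subsingleton (Abelian.Ext k (ModuleCat.of R F) i))
    (hN : ∀ j, j + 1 = i → Subsingleton (Abelian.Ext k (ModuleCat.of R (LinearMap.range α)) j)) :
    Subsingleton (Abelian.Ext k (ModuleCat.of R (LinearMap.range β)) i) := by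
  have h1 := ext_ker k F (LinearMap.range α) α.rangeRestrict α.surjective_rangeRestrict i hF hN
  exact ext_congr k ((LinearMap.ker_rangeRestrict α).trans h) i h1

theorem ext_van {R : Type u} [CommRing R] (k : ModuleCat.{u} R) {F : Type u} [AddCommGroup F]
    [Module R F] (α β : F →ₗ[R] F) (h1 : LinearMap.ker α = LinearMap.range β)
    (h2 : LinearMap.ker β = LinearMap.range α) (l : ℕ)
    (hF : ∀ i < l, Subsingleton (Abelian.Ext k (ModuleCat.of R F) i)) :
    ∀ i < l, Subsingleton (Abelian.Ext k (ModuleCat.of R (LinearMap.range α)) i) ∧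
      Subsingleton (Abelian.Ext k (ModuleCat.of R (LinearMap.range β)) i) := by
  intro i
  induction i with
  | zero =>
    intro hi
    exact ⟨ext_range k β α h2 0 (hF 0 hi) (fun j hj => absurd hj (Nat.succ_ne_zero j)),
      ext_range k α β h1 0 (hF 0 hi) (fun j hj => absurd hj (Nat.succ_ne_zero j))⟩
  | succ i ih =>
    intro hi
    obtain ⟨ha, hb⟩ := ih (by omega)
    refine ⟨ext_range k β α h2 _ (hF _ hi) (fun j hj => ?_),
      ext_range k α β h1 _ (hF _ hi) (fun j hj => ?_)⟩
    · obtain rfl : j = i := by omega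
      exact hb
    · obtain rfl : j = i := by omega
      exact ha

theorem mcm (R : Type u) [CommRing R] [IsLocalRing R] [IsNoetherianRing R]
    (ι : Type) [Fintype ι] [DecidableEq ι] (a b : Matrix ι ι R)
    (ha : a ≠ 0) (h1 : LinearMap.ker a.mulVecLin = LinearMap.range b.mulVecLin)
    (h2 : LinearMap.ker b.mulVecLin = LinearMap.range a.mulVecLin)
    (ys : List R) (hys : ∀ r ∈ ys, r ∈ maximalIdeal R) (hreg : RingTheory.Sequence.IsRegular R ys) :
    ∃ zs : List R, zs.length = ys.length ∧ (∀ r ∈ zs, r ∈ maximalIdeal R) ∧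
      RingTheory.Sequence.IsRegular (LinearMap.range a.mulVecLin) zs := by
  have hne : Nonempty ι := by
    by_contra h
    rw [not_nonempty_iff] at h
    exact ha (Subsingleton.elim _ _)
  have hnt : Nontrivial (LinearMap.range a.mulVecLin) := by
    rw [Submodule.nontrivial_iff_ne_bot]
    intro h
    apply ha
    rw [LinearMap.range_eq_bot] at h
    have h3 : Matrix.toLin' a = Matrix.toLin' (0 : Matrix ι ι R) := by
      rw [Matrix.toLin'_apply', h, map_zero]
    exact Matrix.toLin'.injective h3
  have hF : RingTheory.Sequence.IsRegular (ι → R) ys :=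
    (IsLocalRing.isRegular_iff_isWeaklyRegular_of_subset_maximalIdeal hys).mpr
      (flat_reg (ι → R) hreg.toIsWeaklyRegular)
  have hsupp : Module.support R (ModuleCat.of R (R ⧸ maximalIdeal R)) =
      PrimeSpectrum.zeroLocus (maximalIdeal R : Set R) := by
    change Module.support R (R ⧸ maximalIdeal R) = _
    rw [Module.support_eq_zeroLocus, Ideal.annihilator_quotient]
  have hext : ∀ i < ys.length, Subsingleton (Abelian.Ext (ModuleCat.of R (R ⧸ maximalIdeal R))
      (ModuleCat.of R (ι → R)) i) :=
    ModuleCat.subsingleton_ext_of_exists_isRegular (maximalIdeal R)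
      (ModuleCat.of R (R ⧸ maximalIdeal R)) hsupp.subset (ModuleCat.of R (ι → R))
      (smul_max_lt (ι → R)) ys hys hF
  have hall := ext_van (ModuleCat.of R (R ⧸ maximalIdeal R)) a.mulVecLin b.mulVecLin h1 h2
    ys.length hext
  exact ModuleCat.exists_isRegular_of_exists_subsingleton_ext (maximalIdeal R) ys.length
    (ModuleCat.of R (LinearMap.range a.mulVecLin)) (smul_max_lt _)
    (ModuleCat.of R (R ⧸ maximalIdeal R)) hsupp (fun i hi => (hall i hi).1)

theorem t : Pool.Agent.Y198.DC.S_MCM.{u} :=
  fun R _ _ _ ι _ _ a b ha _ h1 h2 ys hys hreg => mcm R ι a b ha h1 h2 ys hys hreg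

end Pool.Agent.Y383.DC
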